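import Pool.Agent.H11.NS.Targets

/-!
# Module CL1 of the board ns_modules
-/

set_option autoImplicit false

namespace Pool.Agent.H85.NS

open Pool.Agent.H11.NS

/-- product of the conjugates of `c` -/
def PP {H : Type} [Group H] (c s : H) : ℕ → H
  | 0 => 1
  | n + 1 => PP c s n * (s ^ n * c * (s ^ n)⁻¹)

lemma PP_eq {H : Type} [Group H] (c s : H) (n : ℕ) : (c * s) ^ n = PP c s n * s ^ n := by
  induction n with
  | zero => simp [PP]
  | succ n ih =>
    rw [pow_succ, ih, PP, pow_succ]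
    group

lemma pow_eq_one_of_coprime {H : Type} [Group H] {c : H} {m n : ℕ} (hm : c ^ m = 1)
    (hn : c ^ n = 1) (h : Nat.Coprime m n) : c = 1 := by
  have h1 : orderOf c ∣ m := orderOf_dvd_of_pow_eq_one hm
  have h2 : orderOf c ∣ n := orderOf_dvd_of_pow_eq_one hn
  have h3 : orderOf c ∣ 1 := by
    have := Nat.dvd_gcd h1 h2
    rwa [h.gcd_eq_one] at this
  exact orderOf_eq_one_iff.mp (Nat.dvd_one.mp h3)

theorem pf_cl1 : T_CL1 := by
  intro H _ V hV ℓ hℓ hℓ3 hcomm hexp t t' ht ht' hc hNL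
  obtain ⟨k, hk⟩ := ht
  obtain ⟨k', hk'⟩ := ht'
  set c : H := t * t' * t⁻¹ * t'⁻¹ with hcdef
  have hci : ∀ i : ℕ, t' ^ i * c * (t' ^ i)⁻¹ ∈ V := fun i => hV.conj_mem c hc (t' ^ i)
  have hct : t * t' * t⁻¹ = c * t' := by rw [hcdef]; group
  -- conjugates differ by elements fixed by t
  have h1 : ∀ i : ℕ, t * ((t' ^ i * c * (t' ^ i)⁻¹) * c⁻¹) * t⁻¹
      = (t' ^ i * c * (t' ^ i)⁻¹) * c⁻¹ := by
    intro i
    induction i with
    | zero => simp
    | succ i ih =>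
      have e := hNL _ (hci i)
      have e1 : (t' ^ (i + 1) * c * (t' ^ (i + 1))⁻¹) * c⁻¹
          = (t' * (t' ^ i * c * (t' ^ i)⁻¹) * t'⁻¹ * (t' ^ i * c * (t' ^ i)⁻¹)⁻¹) *
            ((t' ^ i * c * (t' ^ i)⁻¹) * c⁻¹) := by
        rw [pow_succ' t' i]
        group
      have e2 : ∀ x y : H, t * (x * y) * t⁻¹ = (t * x * t⁻¹) * (t * y * t⁻¹) := by
        intro x y; group
      rw [e1, e2, e, ih]
  -- powers of c
  have h2 : ∀ n : ℕ, ∃ D ∈ V, t * D * t⁻¹ = D ∧ c ^ n = PP c t' n * D := by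
    intro n
    induction n with
    | zero => exact ⟨1, V.one_mem, by simp, by simp [PP]⟩
    | succ n ih =>
      obtain ⟨D, hD, hD1, hD2⟩ := ih
      set e : H := (t' ^ n * c * (t' ^ n)⁻¹) * c⁻¹ with he
      have heV : e ∈ V := V.mul_mem (hci n) (V.inv_mem hc)
      have het : t * e * t⁻¹ = e := h1 n
      refine ⟨e⁻¹ * D, V.mul_mem (V.inv_mem heV) hD, ?_, ?_⟩
      · have e3 : t * (e⁻¹ * D) * t⁻¹ = (t * e * t⁻¹)⁻¹ * (t * D * t⁻¹) := by group
        rw [e3, het, hD1]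
      · have e4 : t' ^ n * c * (t' ^ n)⁻¹ = e * c := by rw [he]; group
        rw [pow_succ, hD2, PP, e4]
        have e5 : e * c * (e⁻¹ * D) = D * c := by
          rw [hcomm e heV c hc, mul_assoc, mul_inv_cancel_left, hcomm c hc D hD]
        rw [mul_assoc (PP c t' n), mul_assoc (PP c t' n), e5]
  have hcop : Nat.Coprime ℓ (3 ^ k') := by
    apply Nat.Coprime.pow_right
    exact (Nat.coprime_primes hℓ Nat.prime_three).mpr hℓ3
  have hcop2 : Nat.Coprime ℓ (3 ^ k) := by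
    apply Nat.Coprime.pow_right
    exact (Nat.coprime_primes hℓ Nat.prime_three).mpr hℓ3
  have hPq : PP c t' (3 ^ k') = 1 := by
    have e := PP_eq c t' (3 ^ k')
    rw [hk', mul_one, ← hct] at e
    rw [← e, conj_pow, hk']
    simp
  have h3 : t * c ^ (3 ^ k') * t⁻¹ = c ^ (3 ^ k') := by
    obtain ⟨D, hD, hD1, hD2⟩ := h2 (3 ^ k')
    rw [hPq, one_mul] at hD2
    rw [hD2, hD1]
  -- c itself is fixed by t
  have h4 : t * c * t⁻¹ = c := by
    set u : H := (t * c * t⁻¹) * c⁻¹ with hu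
    have hconj : t * c * t⁻¹ ∈ V := hV.conj_mem c hc t
    have huV : u ∈ V := V.mul_mem hconj (V.inv_mem hc)
    have hcomm1 : Commute (t * c * t⁻¹) c⁻¹ := hcomm _ hconj _ (V.inv_mem hc)
    have hu1 : u ^ ℓ = 1 := hexp u huV
    have hu2 : u ^ (3 ^ k') = 1 := by
      rw [hu, hcomm1.mul_pow, conj_pow, h3, inv_pow, mul_inv_cancel]
    have := pow_eq_one_of_coprime hu1 hu2 hcop
    rw [hu] at this
    exact mul_inv_eq_one.mp this
  have h5 : ∀ n : ℕ, t ^ n * t' * (t ^ n)⁻¹ = c ^ n * t' := by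
    intro n
    induction n with
    | zero => simp
    | succ n ih =>
      have e1 : t ^ (n + 1) * t' * (t ^ (n + 1))⁻¹ = t * (t ^ n * t' * (t ^ n)⁻¹) * t⁻¹ := by
        rw [pow_succ' t n]; group
      have e2 : t * (c ^ n * t') * t⁻¹ = (t * c ^ n * t⁻¹) * (t * t' * t⁻¹) := by group
      have e3 : t * c ^ n * t⁻¹ = c ^ n := by
        rw [← conj_pow, h4]
      rw [e1, ih, e2, e3, hct, pow_succ]
      group
  have h6 : c ^ (3 ^ k) = 1 := by
    have e := h5 (3 ^ k)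
    rw [hk] at e
    simpa using e.symm
  have h7 : c = 1 := pow_eq_one_of_coprime (hexp c hc) h6 hcop2
  have h8 : t * t' * t⁻¹ * t'⁻¹ = 1 := h7
  rw [mul_inv_eq_one, mul_inv_eq_iff_eq_mul] at h8
  exact h8

end Pool.Agent.H85.NS
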