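import Pool.Agent.H11.NS.Targets

/-!
# Module NL of the board ns_modules
-/

set_option autoImplicit false

namespace Pool.Agent.H85.NS

open Pool.Agent.H11.NS
open Equiv (Perm)

/-- a 3-cycle moving only points of a given set of three points -/
lemma exists_threeCycle {Ω : Type} [Fintype Ω] [DecidableEq Ω] (S : Finset Ω) (hS : S.card = 3) :
    ∃ c : Perm Ω, c.IsThreeCycle ∧ ∀ x, x ∉ S → c x = x := by
  obtain ⟨x, y, z, hxy, hxz, hyz, rfl⟩ := Finset.card_eq_three.mp hS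
  refine ⟨Equiv.swap x y * Equiv.swap x z,
    Equiv.Perm.isThreeCycle_swap_mul_swap_same hxy hxz hyz, ?_⟩
  intro w hw
  simp only [Finset.mem_insert, Finset.mem_singleton, not_or] at hw
  rw [Equiv.Perm.mul_apply, Equiv.swap_apply_of_ne_of_ne hw.1 hw.2.2,
    Equiv.swap_apply_of_ne_of_ne hw.1 hw.2.1]

/-- the subgroup of even permutations commuting with `a` and trivial on the fixed vectors of `a` -/
def RR {Ω : Type} [Fintype Ω] [DecidableEq Ω] {F W : Type} [Field F]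
    [AddCommGroup W] [Module F W] (ρ : alternatingGroup Ω →* Module.End F W)
    (a : alternatingGroup Ω) : Subgroup (Perm Ω) where
  carrier := {k | ∃ hk : k ∈ alternatingGroup Ω, (a : Perm Ω) * k = k * a ∧
    ∀ v, ρ a v = v → ρ ⟨k, hk⟩ v = v}
  one_mem' := ⟨(alternatingGroup Ω).one_mem, by simp, by
    intro v _
    have : (⟨1, (alternatingGroup Ω).one_mem⟩ : alternatingGroup Ω) = 1 := rfl
    rw [this, map_one]; rfl⟩
  mul_mem' := by
    rintro x y ⟨hx, hx1, hx2⟩ ⟨hy, hy1, hy2⟩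
    refine ⟨(alternatingGroup Ω).mul_mem hx hy, ?_, ?_⟩
    · rw [← mul_assoc, hx1, mul_assoc, hy1, mul_assoc]
    · intro v hv
      have : (⟨x * y, (alternatingGroup Ω).mul_mem hx hy⟩ : alternatingGroup Ω)
          = ⟨x, hx⟩ * ⟨y, hy⟩ := rfl
      rw [this, map_mul, Module.End.mul_apply, hy2 v hv, hx2 v hv]
  inv_mem' := by
    rintro x ⟨hx, hx1, hx2⟩
    refine ⟨(alternatingGroup Ω).inv_mem hx, ?_, ?_⟩
    · exact (Commute.inv_right (show Commute (a : Perm Ω) x from hx1)).eq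
    · intro v hv
      have e1 : ρ (⟨x⁻¹, (alternatingGroup Ω).inv_mem hx⟩ : alternatingGroup Ω) (ρ ⟨x, hx⟩ v)
          = v := by
        rw [← Module.End.mul_apply, ← map_mul]
        have : (⟨x⁻¹, (alternatingGroup Ω).inv_mem hx⟩ : alternatingGroup Ω) * ⟨x, hx⟩ = 1 := by
          apply Subtype.ext
          simp
        rw [this, map_one]; rfl
      rwa [hx2 v hv] at e1

lemma mem_RR {Ω : Type} [Fintype Ω] [DecidableEq Ω] {F W : Type} [Field F]
    [AddCommGroup W] [Module F W] (ρ : alternatingGroup Ω →* Module.End F W)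
    (a : alternatingGroup Ω) (k : Perm Ω) : k ∈ RR ρ a ↔
      ∃ hk : k ∈ alternatingGroup Ω, (a : Perm Ω) * k = k * a ∧
        ∀ v, ρ a v = v → ρ ⟨k, hk⟩ v = v := Iff.rfl

lemma conj_RR {Ω : Type} [Fintype Ω] [DecidableEq Ω] {F W : Type} [Field F]
    [AddCommGroup W] [Module F W] (ρ : alternatingGroup Ω →* Module.End F W)
    (a : alternatingGroup Ω) : ∀ x ∈ alternatingGroup Ω, (a : Perm Ω) * x = x * a →
      ∀ k ∈ RR ρ a, x * k * x⁻¹ ∈ RR ρ a := by
  intro x hx hxa k hk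
  obtain ⟨hk0, hk1, hk2⟩ := (mem_RR ρ a k).mp hk
  have hxa' : (a : Perm Ω) * x⁻¹ = x⁻¹ * a :=
    (Commute.inv_right (show Commute (a : Perm Ω) x from hxa)).eq
  refine (mem_RR ρ a _).mpr ⟨(alternatingGroup Ω).mul_mem ((alternatingGroup Ω).mul_mem hx hk0)
    ((alternatingGroup Ω).inv_mem hx), ?_, ?_⟩
  · calc (a : Perm Ω) * (x * k * x⁻¹) = (a * x) * k * x⁻¹ := by simp only [mul_assoc]
      _ = x * (a * k) * x⁻¹ := by rw [hxa]; simp only [mul_assoc]
      _ = x * k * (a * x⁻¹) := by rw [hk1]; simp only [mul_assoc]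
      _ = x * k * x⁻¹ * a := by rw [hxa']; simp only [mul_assoc]
  · intro v hv
    set X : alternatingGroup Ω := ⟨x, hx⟩
    set K : alternatingGroup Ω := ⟨k, hk0⟩
    have e0 : (⟨x * k * x⁻¹, (alternatingGroup Ω).mul_mem ((alternatingGroup Ω).mul_mem hx hk0)
      ((alternatingGroup Ω).inv_mem hx)⟩ : alternatingGroup Ω) = X * K * X⁻¹ := rfl
    have hXa : a * X⁻¹ = X⁻¹ * a := Subtype.ext hxa'
    have e1 : ρ a (ρ X⁻¹ v) = ρ X⁻¹ v := by
      rw [← Module.End.mul_apply, ← map_mul, hXa, map_mul, Module.End.mul_apply, hv]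
    rw [e0, map_mul, map_mul, Module.End.mul_apply, Module.End.mul_apply, hk2 _ e1,
      ← Module.End.mul_apply, ← map_mul, mul_inv_cancel, map_one]
    rfl

theorem pf_nl : T_CF → T_KA1 → T_KA2 → T_EM → T_EN → T_CO → T_NL := by
  intro _ hKA1 hKA2 hEM hEN hCO Ω _ _ F W _ _ _ ω hω hω1 h3 ρ a h ha hah hfix hsa hsh t t'
    ht ht' htt'
  have hcard : 8 ≤ Fintype.card Ω := by
    have := Finset.card_le_univ (a : Perm Ω).support
    omega
  have ha' : (a : Perm Ω) ^ 3 = 1 := by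
    have := congrArg (Subtype.val) ha
    simpa using this
  have hah' : (a : Perm Ω) * h = h * a := congrArg Subtype.val hah
  have hhR : (h : Perm Ω) ∈ RR ρ a := (mem_RR ρ a _).mpr ⟨h.2, hah', fun v hv => hfix v hv⟩
  have haR : (a : Perm Ω) ∈ RR ρ a := (mem_RR ρ a _).mpr ⟨a.2, rfl, fun v hv => hv⟩
  rcases hKA1 Ω (a : Perm Ω) h ha' hah' hsa (RR ρ a) hhR (conj_RR ρ a) with
    ⟨σ, hσ, τ, hτ, hστ, hR⟩ | ⟨κ, hκ, hdis⟩
  · obtain ⟨hev, -, hR2⟩ := (mem_RR ρ a _).mp hR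
    obtain ⟨t₀, t₀', h1, h2, h12, hz⟩ := hEM Ω F W ω hω hω1 h3 ρ a ha hsa σ τ hσ hτ hστ hev hR2
    exact hCO Ω F W ρ hcard t₀ t₀' t t' h1 h2 h12 ht ht' htt' hz
  · set k : Perm Ω := (h : Perm Ω) * (a : Perm Ω) ^ κ with hk
    have hkR : k ∈ RR ρ a := (RR ρ a).mul_mem hhR ((RR ρ a).pow_mem haR κ)
    have hkA : k ∈ alternatingGroup Ω := ((mem_RR ρ a k).mp hkR).1
    have hks : 18 ≤ k.support.card := hsh κ hκ
    have hall := hKA2 Ω (a : Perm Ω) k (RR ρ a) hkR hkA hdis (by omega) (conj_RR ρ a)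
    obtain ⟨S1, hS1, hS1c⟩ := Finset.exists_subset_card_eq (s := k.support) (n := 3) (by omega)
    have hcd : 3 ≤ (k.support \ S1).card := by
      rw [Finset.card_sdiff_of_subset hS1, hS1c]
      omega
    obtain ⟨S2, hS2, hS2c⟩ := Finset.exists_subset_card_eq (s := k.support \ S1) (n := 3) hcd
    obtain ⟨d, hd3, hd⟩ := exists_threeCycle S1 hS1c
    obtain ⟨d', hd'3, hd'⟩ := exists_threeCycle S2 hS2c
    have hfixa : ∀ x ∈ k.support, (a : Perm Ω) x = x := by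
      intro x hx
      rcases hdis x with h1 | h1
      · exact absurd h1 (Equiv.Perm.mem_support.mp hx)
      · exact h1
    have hda : Equiv.Perm.Disjoint d (a : Perm Ω) := by
      intro x
      by_cases hx : x ∈ S1
      · exact Or.inr (hfixa x (hS1 hx))
      · exact Or.inl (hd x hx)
    have hd'a : Equiv.Perm.Disjoint d' (a : Perm Ω) := by
      intro x
      by_cases hx : x ∈ S2
      · exact Or.inr (hfixa x (Finset.mem_sdiff.mp (hS2 hx)).1)
      · exact Or.inl (hd' x hx)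
    have hdd' : Equiv.Perm.Disjoint d d' := by
      intro x
      by_cases hx : x ∈ S1
      · refine Or.inr (hd' x ?_)
        intro hx2
        exact (Finset.mem_sdiff.mp (hS2 hx2)).2 hx
      · exact Or.inl (hd x hx)
    obtain ⟨hdA, -, hdf⟩ := (mem_RR ρ a d).mp (hall d hd3 hda)
    obtain ⟨hd'A, -, hd'f⟩ := (mem_RR ρ a d').mp (hall d' hd'3 hd'a)
    obtain ⟨t₀, t₀', h1, h2, h12, hz⟩ := hEN Ω F W ω hω hω1 h3 ρ a ha hsa ⟨d, hdA⟩ ⟨d', hd'A⟩
      hd3 hd'3 hdd' hda hd'a hdf hd'f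
    exact hCO Ω F W ρ hcard t₀ t₀' t t' h1 h2 h12 ht ht' htt' hz

end Pool.Agent.H85.NS
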